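import Pool.Agent.N743.AlgR

/-!
# The scale dichotomy of rank `c + 1` for `π`, odd zeta values and incomplete zeta integrals

For an integer `k ≥ 2` let `ω = exp (2 π i / k)`. For a rational number `x ≥ 0` let `R_k(x)` be the integral
`(-1)^k / k! * ∫ (∑_j ω^j log t_j)^k exp (-∑_j t_j) dt` over the part `(0, ∞)^k \ (0, x)^k` of the
octant; `R_k(0) = ζ(k)`.

A number `u` is near at the scale `X` (with parameters `D`, `θ`) if `|P(u)| ≤ 1 / X` for some
nonzero integer polynomial `P` of degree at most `D` with coefficients at most `X ^ θ` (`AlgNear`); over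
`ℚ(e)`: if `|P(e, u)| ≤ 1 / X` for some nonzero integer polynomial `P` in two variables of degree at
most `D` in each variable with coefficients at most `X ^ θ` (`NearRel`). The scale dichotomy of rank `r`
(`DichotomyR r`) for finitely many numbers says that for every `D`, `M > 1` and all small `θ`:

* At every large scale at most `r` of the numbers are near.
* At most `r` of the numbers satisfy a relation of degree at most `D`; if `r` of them do, precisely these
  are near at all large scales.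
* Otherwise every large scale `X` at which `r` of the numbers are near is followed by a scale `Z ≥ X`
  such that only these `r` numbers can be near between `X` and `Z`, and fewer than `r` numbers
  are near at every scale between `Z` and `Z ^ M`; and there are arbitrarily large such `Z`.
* `r` of the numbers satisfy a relation of degree at most `D` if and only if at every large scale `r` of
  the numbers are near.

It holds (over `ℚ` and over `ℚ(e)`) for

* `r = 1`, any finite set of the numbers `ζ(k)`, `R_k(x)`, `x > 0` rational, for every fixed `k ≥ 2`, for instance for an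
  odd `k`;
* `r = c + 1`, any finite set of the numbers `π, ζ(3), ζ(5), …, ζ(2c+1)` and `R_k(x)`, `k` even or `k ≤ 2c + 1`,
  `x > 0` rational;
* in general, arbitrary real numbers `y_1, …, y_r` and numbers `R_k(x)` for which `ζ(k)` is algebraic over
  `ℚ(e, y_1, …, y_r)`.
-/

set_option autoImplicit false

namespace Pool.Agent.Results.MP_c2395a_nt.ScaleDichotomyOfRank

open Set MeasureTheory Pool.Agent.N743

/-- the zeta value `ζ(s) = ∑ 1 / n^s` -/
noncomputable def zeta (s : ℕ) : ℝ := ∑' n : ℕ, 1 / ((n : ℝ) + 1) ^ s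

/-- `ω = exp (2 π i / k)` -/
noncomputable def root (k : ℕ) : ℂ := Complex.exp (2 * Real.pi * Complex.I / k)

/-- `(∑_j ω^j log t_j)^k exp (-∑_j t_j)` -/
noncomputable def integrand (k : ℕ) (t : Fin k → ℝ) : ℂ :=
  (∑ j : Fin k, root k ^ (j : ℕ) * (Real.log (t j) : ℂ)) ^ k * ((Real.exp (-∑ j, t j) : ℝ) : ℂ)

/-- `(0, ∞)^k \ (0, x)^k` -/
def rest (k : ℕ) (x : ℝ) : Set (Fin k → ℝ) := {t | (∀ j, 0 < t j) ∧ ∃ j, x ≤ t j}

/-- `R_k(x)`, as a complex number -/
noncomputable def tailIntegral (k : ℕ) (x : ℚ) : ℂ := (-1) ^ k / k.factorial * ∫ t in rest k x, integrand k t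

/-- `R_k(x)`, as a real number -/
noncomputable def R (k : ℕ) (x : ℚ) : ℝ := (tailIntegral k x).re

/-- `x` is algebraic over `ℚ(e, y_1, …, y_r)` -/
def AlgebraicOverEAnd {r : ℕ} (y : Fin r → ℝ) (x : ℝ) : Prop :=
  IsAlgebraic (IntermediateField.adjoin ℚ ({Real.exp 1} ∪ range y)) x

/-- the numbers `π, ζ(3), ζ(5), …, ζ(2c+1)` -/
noncomputable def constants (c : ℕ) : Fin (c + 1) → ℝ := Fin.cons Real.pi fun i : Fin c => zeta (2 * i + 3)

/-- the numbers `y_1, …, y_r` and `R_k(x)` -/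
noncomputable def number {r : ℕ} (y : Fin r → ℝ) : Fin r ⊕ (ℕ × ℚ) → ℝ := Sum.elim y fun p => R p.1 p.2

/-- The scale dichotomy of rank `r`, over `ℚ` and over `ℚ(e)`, for the real numbers `v_i`. -/
def ScaleDichotomy (r : ℕ) {ι : Type} (v : ι → ℝ) : Prop :=
  ∀ (D : ℕ) (M : ℝ), 1 ≤ D → 1 < M → ∃ θ₀ : ℝ, 0 < θ₀ ∧ ∀ θ : ℝ, 0 < θ → θ ≤ θ₀ →
    DichotomyR r (fun i => AlgDeg D (v i)) (fun X i => AlgNear D θ X (v i)) M ∧
    DichotomyR r (fun i => Related D ((Real.exp 1 : ℝ) : ℂ) ((v i : ℝ) : ℂ))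
      (fun X i => NearRel D θ ((Real.exp 1 : ℝ) : ℂ) ((v i : ℝ) : ℂ) X) M

theorem rest_eq (k : ℕ) (x : ℝ) :
    rest k x = Pool.Agent.R352.Q.cube k (Ioi 0) \ Pool.Agent.R352.Q.cube k (Ioo 0 x) := by
  ext t
  simp only [rest, Pool.Agent.R352.Q.cube, mem_sdiff, mem_univ_pi, mem_Ioi, mem_Ioo]
  constructor
  · rintro ⟨h1, j, h2⟩
    exact ⟨h1, fun h => absurd (h j).2 (not_lt.2 h2)⟩
  · rintro ⟨h1, h2⟩
    push Not at h2
    obtain ⟨j, hj⟩ := h2
    exact ⟨h1, j, hj (h1 j)⟩

theorem tailIntegral_eq {k : ℕ} (hk : 2 ≤ k) {x : ℚ} (hx : 0 < x) :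
    tailIntegral k x = (Pool.Agent.R352.Q.Rk k x : ℂ) := by
  have hx' : (0 : ℝ) < x := by exact_mod_cast hx
  have h : tailIntegral k x = Pool.Agent.R352.Q.NI k
      (Pool.Agent.R352.Q.cube k (Ioi 0) \ Pool.Agent.R352.Q.cube k (Ioo 0 x)) := by
    rw [tailIntegral, rest_eq]
    rfl
  rw [h, Pool.Agent.R352.Q.NI_diff, Pool.Agent.R352.Q.NI_full hk, Pool.Agent.R352.Q.NI_box hk hx',
    Pool.Agent.R352.Q.Rk]
  push_cast
  rfl

theorem tailIntegral_zero {k : ℕ} (hk : 2 ≤ k) : tailIntegral k 0 = (zeta k : ℂ) := by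
  have h1 : rest k ((0 : ℚ) : ℝ) = Pool.Agent.R352.Q.cube k (Ioi 0) := by
    ext t
    simp only [rest, Pool.Agent.R352.Q.cube, mem_univ_pi, mem_Ioi, Rat.cast_zero]
    constructor
    · rintro ⟨h1, -⟩
      exact h1
    · intro h
      exact ⟨h, ⟨0, by omega⟩, (h _).le⟩
  have h2 : tailIntegral k 0 = Pool.Agent.R352.Q.NI k (Pool.Agent.R352.Q.cube k (Ioi 0)) := by
    rw [tailIntegral, h1]
    rfl
  rw [h2, Pool.Agent.R352.Q.NI_full hk]
  rfl

theorem R_eq {k : ℕ} (hk : 2 ≤ k) {x : ℚ} (hx : 0 < x) : R k x = Pool.Agent.R352.Q.Rk k x := by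
  rw [R, tailIntegral_eq hk hx, Complex.ofReal_re]

theorem general {r : ℕ} (hr : 1 ≤ r) (y : Fin r → ℝ) {ι : Type} [Finite ι] (b : ι → Fin r ⊕ (ℕ × ℚ))
    (hb : Function.Injective b)
    (hK : ∀ i p, b i = Sum.inr p → 2 ≤ p.1 ∧ 0 < p.2 ∧ AlgebraicOverEAnd y (zeta p.1)) :
    ScaleDichotomy r fun i => number y (b i) := by
  intro D M hD hM
  have hK' : ∀ i p, b i = Sum.inr p → 2 ≤ p.1 ∧ 0 < p.2 ∧
      Pool.Agent.R352.E.zt p.1 ∈ Pool.Agent.R352.E.clF ({Real.exp 1} ∪ range y) := fun i p h =>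
    ⟨(hK i p h).1, (hK i p h).2.1, Pool.Agent.R352.E.mem_clF.2 (hK i p h).2.2⟩
  obtain ⟨θ₁, hθ₁, h1⟩ := dichotomy_zeta_alg hr y b hb hK' D M hM
  obtain ⟨θ₂, hθ₂, h2⟩ := dichotomy_zeta hr y b hb hK' D hD M hM
  have e : ∀ i, Sum.elim y (fun p : ℕ × ℚ => Pool.Agent.R352.Q.Rk p.1 p.2) (b i) = number y (b i) := by
    intro i
    rcases hi : b i with j | p
    · rfl
    · exact (R_eq (hK i p hi).1 (hK i p hi).2.1).symm
  refine ⟨min θ₁ θ₂, lt_min hθ₁ hθ₂, fun θ hθ hle => ⟨?_, ?_⟩⟩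
  · have h3 := h1 θ hθ (hle.trans (min_le_left _ _))
    simpa only [e] using h3
  · have h3 := h2 θ hθ (hle.trans (min_le_right _ _))
    simpa only [e] using h3

theorem constants_mem {c k : ℕ} (hk : 2 ≤ k) (h : Even k ∨ k ≤ 2 * c + 1) :
    AlgebraicOverEAnd (constants c) (zeta k) := by
  refine Pool.Agent.R352.E.mem_clF.1 ?_
  have hpi : Real.pi ∈ Pool.Agent.R352.E.clF ({Real.exp 1} ∪ range (constants c)) :=
    Pool.Agent.R352.E.subset_clF _ (Or.inr ⟨0, rfl⟩)
  rcases Nat.even_or_odd' k with ⟨j, rfl | rfl⟩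
  · exact Pool.Agent.R352.E.zt_even hpi j (by omega)
  · have h1 : 2 * j + 1 ≤ 2 * c + 1 := by
      rcases h with h | h
      · exact absurd h (by simp)
      · exact h
    refine Pool.Agent.R352.E.subset_clF _ (Or.inr ⟨Fin.succ ⟨j - 1, by omega⟩, ?_⟩)
    simp only [constants, Fin.cons_succ]
    congr 1
    omega

/-- **The scale dichotomy of rank `r`.** (1) `R_k(x)` is real and `R_k(0) = ζ(k)`. (2) The general
theorem. (3) Rank one: `ζ(k)` and `R_k(x)`, `k ≥ 2` fixed. (4) Rank `c + 1`: `π, ζ(3), …, ζ(2c+1)` and `R_k(x)`. -/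
theorem result :
    (∀ k : ℕ, 2 ≤ k → (∀ x : ℚ, 0 ≤ x → tailIntegral k x = (R k x : ℂ)) ∧ R k 0 = zeta k) ∧
    (∀ (r : ℕ) (y : Fin r → ℝ) (ι : Type) [Finite ι] (b : ι → Fin r ⊕ (ℕ × ℚ)), 1 ≤ r → Function.Injective b →
      (∀ i k x, b i = Sum.inr (k, x) → 2 ≤ k ∧ 0 < x ∧ AlgebraicOverEAnd y (zeta k)) →
      ScaleDichotomy r fun i => number y (b i)) ∧
    (∀ (k : ℕ) (ι : Type) [Finite ι] (x : ι → ℚ), 2 ≤ k → Function.Injective x → (∀ i, 0 ≤ x i) →
      ScaleDichotomy 1 fun i => R k (x i)) ∧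
    (∀ (c : ℕ) (ι : Type) [Finite ι] (b : ι → Fin (c + 1) ⊕ (ℕ × ℚ)), Function.Injective b →
      (∀ i k x, b i = Sum.inr (k, x) → 2 ≤ k ∧ 0 < x ∧ (Even k ∨ k ≤ 2 * c + 1)) →
      ScaleDichotomy (c + 1) fun i => number (constants c) (b i)) := by
  have hz : ∀ k : ℕ, 2 ≤ k → R k 0 = zeta k := fun k hk => by
    rw [R, tailIntegral_zero hk, Complex.ofReal_re]
  refine ⟨fun k hk => ⟨fun x hx => ?_, hz k hk⟩, ?_, ?_, ?_⟩
  · rcases hx.eq_or_lt with rfl | hx
    · rw [hz k hk, tailIntegral_zero hk]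
    · rw [R_eq hk hx, tailIntegral_eq hk hx]
  · intro r y ι _ b hr hb hK
    exact general hr y b hb fun i p h => hK i p.1 p.2 h
  · intro k ι _ x hk hx hpos
    have h := general (le_refl 1) (fun _ : Fin 1 => zeta k)
      (fun i => if x i = 0 then Sum.inl 0 else Sum.inr (k, x i)) (by
        intro i j hij
        simp only at hij
        by_cases h1 : x i = 0 <;> by_cases h2 : x j = 0
        · exact hx (h1.trans h2.symm)
        · rw [if_pos h1, if_neg h2] at hij
          simp at hij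
        · rw [if_neg h1, if_pos h2] at hij
          simp at hij
        · rw [if_neg h1, if_neg h2] at hij
          simp only [Sum.inr.injEq, Prod.mk.injEq, true_and] at hij
          exact hx hij) (fun i p h => by
        by_cases h1 : x i = 0
        · simp only [h1, if_true] at h
          simp at h
        · simp only [if_neg h1, Sum.inr.injEq] at h
          subst h
          refine ⟨hk, lt_of_le_of_ne (hpos i) (Ne.symm h1), ?_⟩
          exact Pool.Agent.R352.E.mem_clF.1 (Pool.Agent.R352.E.subset_clF _ (Or.inr ⟨0, rfl⟩)))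
    have e : ∀ i, number (fun _ : Fin 1 => zeta k) (if x i = 0 then Sum.inl 0 else Sum.inr (k, x i)) = R k (x i) := by
      intro i
      by_cases h1 : x i = 0
      · rw [if_pos h1, h1, hz k hk]; rfl
      · rw [if_neg h1]; rfl
    simpa only [e] using h
  · intro c ι _ b hb hK
    exact general (by omega) (constants c) b hb fun i p h =>
      ⟨(hK i p.1 p.2 h).1, (hK i p.1 p.2 h).2.1, constants_mem (hK i p.1 p.2 h).1 (hK i p.1 p.2 h).2.2⟩

end Pool.Agent.Results.MP_c2395a_nt.ScaleDichotomyOfRank
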