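import Pool.Agent.N797.PW.Final

/-!
# Polynomially many linearly independent odd zeta values in windows

There is an absolute constant `c > 0` such that for every window `(b, s]` the numbers `1` and `ζ(j)`, `j` odd,
`b < j ≤ s`, span a rational vector space of dimension at least `c min(√(s/b), s^(1/4)) / log s`.

More precisely: let `L = ⌊log₂ S⌋ + 1` and `2^41 S² L (b + S² L²) ≤ s`. Then

* the dimension is at least `S + 1`;
* for all large `q` some odd `j` in `(b, s]` has `|q ζ(j) - p| ≥ q^(-1/S)` for all integers `p`;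
* if `F` is a real number field of degree at most `d`, `V` an `F`-vector space of real numbers of dimension at most `v`
  and `d (v + m) ≤ S`, then there are `m` odd `j` in `(b, s]` such that the `ζ(j)` are linearly independent over `F`
  modulo `V`.

Proof. `F(t) = ∑_{k < n} ∑_{i ≤ 2h} c_{ik} / (t + k)^i` with unknown integers `c_{ik}`, antisymmetric. By the pigeonhole
principle there are small `c_{ik}`, not all zero, such that `F` vanishes to the order `2 w n` at infinity (the
equations have the small common denominator `gcd(d_n^(2h), n!^(2w+2))`), `F` vanishes to the order `B = b + 2M` at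
`1, …, 16 n`, and the derivatives of order `< B` (without the poles to the right) are integral at `0, -1, …, -(n-1)`.
The forms `∑_t (1/β!) (F g)^(β)(t)`, `β = b, b + 2, …, b + 2M - 2`, `g` an integer-valued polynomial of degree
`≤ γ n` in `t (t + n - 1)`, are then small and have the small common denominator `gcd(d_n^(2h+2B), n!^(2γ+2))`. If all
`ζ(j)` of the window are replaced by close fractions with denominator `q`, all these forms vanish; by duality
`F ∏ (t + k)^(2h) · E_β ≡ A_β` to the order `2h` at the poles, `A_β` a polynomial of small degree, `E_β` the germs of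
`∑_t (t - x)^(-β-1)`. A determinant of size `M + 1` of shifts vanishes, and a semilinear argument gives a nontrivial
constant combination of the functions `1/(t-1)^(β+1) + 1/(t+n-1)^(β+1)` which is a difference `y(t) - y(t-1)` of a
rational function: a contradiction.

The parts are in `Pool/Agent/N797/PW/` (`Stm.lean`: the statements; `J_*.lean`: the proofs, by helpers 40, 92, 386,
391, 402, 414, 492, 755, 803, 812, 838, 868, 933; `ZE.lean`, `Core.lean`, `Fin.lean`: the assembly, helper 797).
-/

set_option autoImplicit false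

namespace Pool.Agent.Results.MP_c2395a_nt.WindowsPolynomial

/-- **Polynomially many linearly independent odd zeta values in windows.** Let `S ≥ 1`, `L = ⌊log₂ S⌋ + 1` and
`2^41 S² L (b + S² L²) ≤ s`. Then: the numbers `1` and `ζ(j) = ∑ 1/(n+1)^j`, `j` odd, `b < j ≤ s`, span a rational
vector space of dimension at least `S + 1`; for all large `q` some odd `j` in `(b, s]` has `|q ζ(j) - p| ≥ q^(-1/S)`
for all integers `p`; and for every real number field `F` of degree at most `d` and every `F`-vector space `V` of real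
numbers of dimension at most `v` with `d (v + m) ≤ S` there are `m` odd integers `j` in `(b, s]` such that the classes
of the `ζ(j)` in `ℝ / V` are linearly independent over `F`. -/
theorem result (b S s : ℕ) (hS : 1 ≤ S)
    (hs : 2 ^ 41 * (S ^ 2 * (Nat.log 2 S + 1) * (b + S ^ 2 * (Nat.log 2 S + 1) ^ 2)) ≤ s) :
    S + 1 ≤ Module.finrank ℚ (Submodule.span ℚ
      ({x : ℝ | x = 1 ∨ ∃ j, b < j ∧ j ≤ s ∧ Odd j ∧ x = ∑' n : ℕ, 1 / ((n : ℝ) + 1) ^ j} : Set ℝ)) ∧
    (∃ q0 : ℕ, ∀ q ≥ q0, ∃ j, b < j ∧ j ≤ s ∧ Odd j ∧
      ∀ p : ℤ, (q : ℝ) ^ (-(1 / (S : ℝ))) ≤ |(q : ℝ) * (∑' n : ℕ, 1 / ((n : ℝ) + 1) ^ j) - p|) ∧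
    ∀ d v m : ℕ, 1 ≤ d → d * (v + m) ≤ S →
      ∀ (F : IntermediateField ℚ ℝ) [FiniteDimensional ℚ F], Module.finrank ℚ F ≤ d →
      ∀ (V : Submodule F ℝ) [Module.Finite F V], Module.finrank F V ≤ v →
      ∃ J : Finset ℕ, J.card = m ∧ (∀ j ∈ J, b < j ∧ j ≤ s ∧ Odd j) ∧
        LinearIndependent F (fun j : J => V.mkQ (∑' n : ℕ, 1 / ((n : ℝ) + 1) ^ (j : ℕ))) := by
  have hM := Pool.Agent.N797.PW.measure hS hs
  exact ⟨Pool.Agent.N797.PW.dim_of_Ms hM, hM, fun d v m hd hdS F _ hF V _ hV =>
    Pool.Agent.N797.PW.indep hM hd hdS F hF V hV⟩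

end Pool.Agent.Results.MP_c2395a_nt.WindowsPolynomial
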