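import Pool.Agent.N334.W.Main

/-!
# Windows of odd zeta values of ratio 3.6

For every odd `s ≥ 1` there is an odd `j` with `s + 2 ≤ j < 3.6 s` such that `ζ(j)` is irrational: one of the numbers
`ζ(s+2), ζ(s+4), …, ζ(j)`, `5 j < 18 s`. The literature (Zudilin) has this with the bound `8 s - 1`, the starting library
with about `21/4 · s`.

Method. Hankel determinants of the linear form `Q ↦ ∑_{t ≥ 0} (1/b!) (d/dt)^b [R(t) Q(t(t+4n))]`,
`R(t) = ((2n)!)^h (2t+4n) / ∏_{k=n}^{3n} (t+k)^h`, on the polynomials `Q` of degree `< N`, `b = s - 1`; the values on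
integral polynomials are linear forms in `1, ζ(s+2), …, ζ(s+h-1)` with rational coefficients, whose denominators are
bounded prime by prime (partial fractions modulo powers of `p`, lattices of polynomials) and whose determinants are small
(interpolation nodes and an extremal problem for polynomials with free zeros at the nodes). Nonvanishing by a
transcendence-free argument: a vanishing determinant yields a rational function with impossible poles.

The parts are in `Pool/Agent/N334/W/` (`Defs.lean`, `Stm.lean`: definitions and statements; `AR.lean`, `Fin.lean`,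
`Main.lean`: the assembly).
-/

namespace Pool.Agent.Results.MP_c2395a_nt.WindowsRatio36

/-- **Windows of ratio 3.6.** For every odd `s ≥ 1` there is an odd integer `j` with `s + 2 ≤ j` and `5 j < 18 s` such
that `ζ(j) = ∑ 1/(n+1)^j` is irrational. -/
theorem result (s : ℕ) (hs : Odd s) :
    ∃ j : ℕ, Odd j ∧ s + 2 ≤ j ∧ 5 * j < 18 * s ∧ Irrational (∑' n : ℕ, 1 / ((n : ℝ) + 1) ^ j) :=
  Pool.Agent.N334.W.windows s hs

end Pool.Agent.Results.MP_c2395a_nt.WindowsRatio36
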