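import Mathlib
import Pool.Agent.N778.AF.Zeta
import Pool.Agent.N778.AF.Sim

set_option autoImplicit false

/-!
# Sets of zeta values, scale by scale

For an integer `k ≥ 2` let `ω = exp (2 π i / k)`. For a rational number `x ≥ 0` let `R_k(x)` be the integral
`(-1)^k / k! * ∫ (∑_j ω^j log t_j)^k exp (-∑_j t_j) dt` over the part `(0, ∞)^k \ (0, x)^k` of the octant.

(1) `R_k(x)` is real and `R_k(0) = ζ(k)`.

Let `K` be a finite set of integers `k ≥ 2` (for example `{5, 7, 9, 11}`), and let `t`, `N` be disjoint finite sets of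
pairs `(k, x)`, `k ∈ K`, `x ≥ 0` rational.

(2) Let `t` have at least `|K|` elements. For every `D` there are `κ` and `c > 0` such that for all `H ≥ 1` and
all nonzero integral polynomials `Q_i(X, Y)` (`i ∈ t`), `P(Y, (X_j))` (`j ∈ N`) of degree at most `D` and with
coefficients at most `H` in absolute value, `|Q_i(R_i, e)| ≥ c / H ^ κ` for some `i`, or
`|P(e, (R_j))| ≥ c / H ^ κ`. So at each scale `H` at which the `R_i`, `i ∈ t` (for example the `ζ(k)`, `k ∈ K`), are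
simultaneously near numbers algebraic over `ℚ(e)`, the other numbers and `e` do not satisfy any relation approximately.

(3) Let the numbers `x` in `t` and `N` be positive and let `t` have at least `|K| - 1` elements. For every `D` there are
`κ` and `c > 0` such that for all `H ≥ 1` and all nonzero integral polynomials `F` (in `e` and the `ζ(k)`, `k ∈ K`),
`Q_i`, `P` of degree at most `D` and with coefficients at most `H` in absolute value
`|F(e, (ζ(k))_k)| ≥ c / H ^ κ` or `|Q_i(R_i, e)| ≥ c / H ^ κ` for some `i`, or `|P(e, (R_j))| ≥ c / H ^ κ`.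

(4) Let `t` have at least `|K|` elements and let the numbers `R_i`, `i ∈ t`, be simultaneously approximable to every
order (for all `n` there are integers `q ≥ 2` and `p_i` with `|R_i - p_i / q| < q ^ (-n)`; so it is if they are
rational). Then `e` and the numbers `R_j`, `j ∈ N`, are algebraically independent.
-/

namespace Pool.Agent.Results.MP_c2395a_nt.ZetaScaleDichotomy

open Set MeasureTheory

/-- the zeta value `ζ(s) = ∑ 1 / n^s` -/
noncomputable def zeta (s : ℕ) : ℝ := ∑' n : ℕ, 1 / ((n : ℝ) + 1) ^ s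

/-- `ω = exp (2 π i / k)` -/
noncomputable def root (k : ℕ) : ℂ := Complex.exp (2 * Real.pi * Complex.I / k)

/-- `(∑_j ω^j log t_j)^k exp (-∑_j t_j)` -/
noncomputable def integrand (k : ℕ) (t : Fin k → ℝ) : ℂ :=
  (∑ j : Fin k, root k ^ (j : ℕ) * (Real.log (t j) : ℂ)) ^ k * ((Real.exp (-∑ j, t j) : ℝ) : ℂ)

/-- `(0, ∞)^k \ (0, x)^k` -/
def rest (k : ℕ) (x : ℝ) : Set (Fin k → ℝ) := {t | (∀ j, 0 < t j) ∧ ∃ j, x ≤ t j}

/-- `R_k(x)`, as a complex number -/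
noncomputable def tailIntegral (k : ℕ) (x : ℚ) : ℂ := (-1) ^ k / k.factorial * ∫ t in rest k x, integrand k t

/-- `R_k(x)`, as a real number, for the pair `(k, x)` -/
noncomputable def R (p : ℕ × ℚ) : ℝ := (tailIntegral p.1 p.2).re

/-- the height of the polynomial `P` is at most `H` -/
def HeightLE {σ : Type} (P : MvPolynomial σ ℤ) (H : ℝ) : Prop := ∀ s, |((P.coeff s : ℤ) : ℝ)| ≤ H

/-- For every `D` there are `κ` and `c > 0` such that for all nonzero integral polynomials `Q_i(X, Y)` and `P(Y, (X_j))`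
of degree at most `D` and height at most `H`, `H ≥ 1`, one of the numbers `Q_i(v_i, e)`, `P(e, (u_j))` is at least
`c / H ^ κ` in absolute value. -/
def Dichotomy {ι ι' : Type} (v : ι → ℝ) (u : ι' → ℝ) : Prop :=
  ∀ D : ℕ, ∃ κ : ℕ, ∃ c : ℝ, 0 < c ∧ ∀ (Q : ι → MvPolynomial (Fin 2) ℤ) (P : MvPolynomial (Option ι') ℤ),
    (∀ i, Q i ≠ 0) → P ≠ 0 → (∀ i, (Q i).totalDegree ≤ D) → P.totalDegree ≤ D → ∀ H : ℝ, 1 ≤ H →
    (∀ i, HeightLE (Q i) H) → HeightLE P H →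
      (∃ i, c / H ^ κ ≤ |MvPolynomial.aeval ![v i, Real.exp 1] (Q i)|) ∨
        c / H ^ κ ≤ |MvPolynomial.aeval (fun o : Option ι' => o.elim (Real.exp 1) u) P|

/-- The same with a third possibility: `|F(e, (y_l))| ≥ c / H ^ κ`. -/
def Trichotomy {ι₀ ι ι' : Type} (y : ι₀ → ℝ) (v : ι → ℝ) (u : ι' → ℝ) : Prop :=
  ∀ D : ℕ, ∃ κ : ℕ, ∃ c : ℝ, 0 < c ∧ ∀ (F : MvPolynomial (Option ι₀) ℤ) (Q : ι → MvPolynomial (Fin 2) ℤ)
    (P : MvPolynomial (Option ι') ℤ), F ≠ 0 → (∀ i, Q i ≠ 0) → P ≠ 0 → F.totalDegree ≤ D →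
    (∀ i, (Q i).totalDegree ≤ D) → P.totalDegree ≤ D → ∀ H : ℝ, 1 ≤ H → HeightLE F H →
    (∀ i, HeightLE (Q i) H) → HeightLE P H →
      c / H ^ κ ≤ |MvPolynomial.aeval (fun o : Option ι₀ => o.elim (Real.exp 1) y) F| ∨
      (∃ i, c / H ^ κ ≤ |MvPolynomial.aeval ![v i, Real.exp 1] (Q i)|) ∨
        c / H ^ κ ≤ |MvPolynomial.aeval (fun o : Option ι' => o.elim (Real.exp 1) u) P|

open Pool.Agent.N778.AF (Dx Dy RR zeta_dichK zeta_dichK2)

theorem rest_eq (k : ℕ) (x : ℝ) :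
    rest k x = Pool.Agent.R352.Q.cube k (Ioi 0) \ Pool.Agent.R352.Q.cube k (Ioo 0 x) := by
  ext t
  simp only [rest, Pool.Agent.R352.Q.cube, mem_sdiff, mem_univ_pi, mem_Ioi, mem_Ioo]
  constructor
  · rintro ⟨h1, j, h2⟩
    exact ⟨h1, fun h => absurd (h j).2 (not_lt.2 h2)⟩
  · rintro ⟨h1, h2⟩
    push Not at h2
    obtain ⟨j, hj⟩ := h2
    exact ⟨h1, j, hj (h1 j)⟩

theorem tailIntegral_eq {k : ℕ} (hk : 2 ≤ k) {x : ℚ} (hx : 0 < x) :
    tailIntegral k x = (Pool.Agent.R352.Q.Rk k x : ℂ) := by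
  have hx' : (0 : ℝ) < x := by exact_mod_cast hx
  have h : tailIntegral k x = Pool.Agent.R352.Q.NI k
      (Pool.Agent.R352.Q.cube k (Ioi 0) \ Pool.Agent.R352.Q.cube k (Ioo 0 x)) := by
    rw [tailIntegral, rest_eq]
    rfl
  rw [h, Pool.Agent.R352.Q.NI_diff, Pool.Agent.R352.Q.NI_full hk, Pool.Agent.R352.Q.NI_box hk hx',
    Pool.Agent.R352.Q.Rk]
  push_cast
  rfl

theorem tailIntegral_zero {k : ℕ} (hk : 2 ≤ k) : tailIntegral k 0 = (zeta k : ℂ) := by
  have h1 : rest k ((0 : ℚ) : ℝ) = Pool.Agent.R352.Q.cube k (Ioi 0) := by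
    ext t
    simp only [rest, Pool.Agent.R352.Q.cube, mem_univ_pi, mem_Ioi, Rat.cast_zero]
    constructor
    · rintro ⟨h1, -⟩
      exact h1
    · intro h
      exact ⟨h, ⟨0, by omega⟩, (h _).le⟩
  have h2 : tailIntegral k 0 = Pool.Agent.R352.Q.NI k (Pool.Agent.R352.Q.cube k (Ioi 0)) := by
    rw [tailIntegral, h1]
    rfl
  rw [h2, Pool.Agent.R352.Q.NI_full hk]
  rfl

theorem R_eq {p : ℕ × ℚ} (hk : 2 ≤ p.1) (hx : 0 ≤ p.2) : R p = RR p := by
  obtain ⟨k, x⟩ := p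
  rcases hx.eq_or_lt with h | h
  · simp only at h
    subst h
    rw [R, tailIntegral_zero hk, Complex.ofReal_re, RR, if_pos rfl]
    rfl
  · rw [R, tailIntegral_eq hk h, Complex.ofReal_re, RR, if_neg h.ne']

theorem main {K : Finset ℕ} (hK : ∀ k ∈ K, 2 ≤ k) {t N : Finset (ℕ × ℚ)} (hd : Disjoint t N)
    (h : ∀ p ∈ t ∪ N, p.1 ∈ K ∧ 0 ≤ p.2) (hcard : K.card ≤ t.card) :
    Dx (fun i : t => R i) (fun j : N => R j) := by
  refine (zeta_dichK K hK t N h hcard hd).mono id (fun i => ?_) id Function.injective_id (fun j => ?_)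
  · have h1 := h i.1 (Finset.mem_union_left _ i.2)
    exact R_eq (hK _ h1.1) h1.2
  · have h1 := h j.1 (Finset.mem_union_right _ j.2)
    exact (R_eq (hK _ h1.1) h1.2).symm

theorem result :
    -- (1)
    (∀ k : ℕ, 2 ≤ k → (∀ x : ℚ, 0 ≤ x → tailIntegral k x = (R (k, x) : ℂ)) ∧ R (k, 0) = zeta k) ∧
    -- (2)
    (∀ K : Finset ℕ, (∀ k ∈ K, 2 ≤ k) → ∀ t N : Finset (ℕ × ℚ), Disjoint t N →
      (∀ p ∈ t ∪ N, p.1 ∈ K ∧ 0 ≤ p.2) → K.card ≤ t.card → Dichotomy (fun i : t => R i) (fun j : N => R j)) ∧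
    -- (3)
    (∀ K : Finset ℕ, (∀ k ∈ K, 2 ≤ k) → ∀ t N : Finset (ℕ × ℚ), Disjoint t N →
      (∀ p ∈ t ∪ N, p.1 ∈ K ∧ 0 < p.2) → K.card ≤ t.card + 1 →
        Trichotomy (fun k : K => zeta k) (fun i : t => R i) (fun j : N => R j)) ∧
    -- (4)
    (∀ K : Finset ℕ, (∀ k ∈ K, 2 ≤ k) → ∀ t N : Finset (ℕ × ℚ), Disjoint t N →
      (∀ p ∈ t ∪ N, p.1 ∈ K ∧ 0 ≤ p.2) → K.card ≤ t.card →
      (∀ n : ℕ, ∃ q : ℕ, 2 ≤ q ∧ ∃ p : t → ℤ, ∀ i : t, |R i - p i / q| < 1 / (q : ℝ) ^ n) →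
        AlgebraicIndependent ℚ (fun o : Option N => o.elim (Real.exp 1) (fun j => R j))) := by
  have h0 : ∀ k : ℕ, 2 ≤ k → R (k, 0) = zeta k := by
    intro k hk
    rw [R, tailIntegral_zero hk, Complex.ofReal_re]
  refine ⟨fun k hk => ⟨fun x hx => ?_, h0 k hk⟩, fun K hK t N hd h hcard => main hK hd h hcard,
    fun K hK t N hd h hcard => ?_, fun K hK t N hd h hcard hv => (main hK hd h hcard).indep_sim hv⟩
  · rcases hx.eq_or_lt with hx0 | hx0
    · rw [← hx0, h0 k hk, tailIntegral_zero hk]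
    · rw [R, tailIntegral_eq hk hx0, Complex.ofReal_re]
  · refine (zeta_dichK2 K hK t N h hcard hd).mono id Function.injective_id (fun k => rfl) id (fun i => ?_) id
      Function.injective_id (fun j => ?_)
    · have h1 := h i.1 (Finset.mem_union_left _ i.2)
      exact R_eq (hK _ h1.1) h1.2.le
    · have h1 := h j.1 (Finset.mem_union_right _ j.2)
      exact (R_eq (hK _ h1.1) h1.2.le).symm

end Pool.Agent.Results.MP_c2395a_nt.ZetaScaleDichotomy
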